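import Pool.Agent.H19M.Stm

set_option autoImplicit false

/-!
Project H19M (helper19), piece CMB (by helper72): finitely many ultrafilters are combined into one,
given PWZ.
-/

open Filter Topology Pool.Agent.N709.UM Pool.Agent.H19M

universe u

namespace Pool.Agent.H72M.CMB

variable {H : Type u} [Group H]

/-- conjugation by a fixed element is continuous at `1` -/
theorem cj [TopologicalSpace H] [IsTopologicalGroup H] {ρ : H → ℝ} (hρ : Gen ρ) (h : H) (ε : ℝ)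
    (hε : 0 < ε) : ∃ t : ℝ, 0 < t ∧ ∀ w : H, ρ w < t → ρ (h * w * h⁻¹) < ε := by
  have hc : Continuous (fun w : H => ρ (h * w * h⁻¹)) :=
    hρ.cont.comp ((continuous_const.mul continuous_id).mul continuous_const)
  have hU : {w : H | ρ (h * w * h⁻¹) < ε} ∈ 𝓝 (1 : H) := by
    apply (isOpen_lt hc continuous_const).mem_nhds
    show ρ (h * 1 * h⁻¹) < ε
    rw [mul_one, mul_inv_cancel, hρ.pn.one]
    exact hε
  obtain ⟨r, hr, hr'⟩ := hρ.gen _ hU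
  exact ⟨r, hr, fun w hw => hr' w hw⟩

/-- the product of two ultrafilters -/
noncomputable def str (p q : Ultrafilter H) : Ultrafilter H :=
  p.bind (fun x => q.map (fun y => x * y))

theorem ev_str (p q : Ultrafilter H) (P : H → Prop) :
    (∀ᶠ z in (str p q : Filter H), P z) ↔
      ∀ᶠ x in (p : Filter H), ∀ᶠ y in (q : Filter H), P (x * y) := Iff.rfl

theorem str_le {ρ : H → ℝ} {F : Filter H} (hF : Deep ρ F) {p q : Ultrafilter H}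
    (hp : (p : Filter H) ≤ F) (hq : (q : Filter H) ≤ F) : (str p q : Filter H) ≤ F := by
  intro A hA
  have h := hF.mul A hA
  have h2 : ∀ᶠ z in (str p q : Filter H), z ∈ A := by
    rw [ev_str]
    exact (h.filter_mono hp).mono (fun x hx => hx.filter_mono hq)
  exact h2

theorem aux3 (B k : H) : (B * k * B⁻¹ * k⁻¹) * (k * B) = B * k := by group

/-- remove a small factor -/
theorem corr1 {ρ : H → ℝ} (hρ : PN ρ) (h e g : H) :
    ρ (h * g) ≤ ρ (h * e * h⁻¹) + ρ (h * (e * g)) := by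
  have h1 : h * g = (h * e * h⁻¹)⁻¹ * (h * (e * g)) := by group
  rw [h1]
  refine (hρ.mul _ _).trans ?_
  rw [hρ.inv]

/-- insert a small factor -/
theorem corr2 {ρ : H → ℝ} (hρ : PN ρ) (h e g : H) :
    ρ (h * (e * g)) ≤ ρ (h * e * h⁻¹) + ρ (h * g) := by
  have h1 : h * (e * g) = (h * e * h⁻¹) * (h * g) := by group
  rw [h1]
  exact hρ.mul _ _

theorem red (hZ : S_PWZ.{u}) [TopologicalSpace H] [IsTopologicalGroup H] {ρ : H → ℝ}
    (hρ : Gen ρ) {F : Filter H} (hF : Deep ρ F) {p q : Ultrafilter H} (hq : (q : Filter H) ≤ F)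
    {κ c : ℤ} {l ε : ℝ} (hε : 0 < ε) (h : H)
    (hv : ∀ᶠ x in (p : Filter H), ∀ᶠ y in (q : Filter H), ∀ᶠ b in F,
      l ≤ ρ (h * x ^ c * y ^ c * b ^ κ)) :
    ∀ᶠ z in (str p q : Filter H), ∀ᶠ b in F, l - ε ≤ ρ (h * z ^ c * b ^ κ) := by
  rw [ev_str]
  filter_upwards [hv] with x hx
  obtain ⟨t, ht, ht'⟩ := cj hρ h ε hε
  have h1 := (hZ H ρ hρ F hF x c t ht).filter_mono hq
  filter_upwards [h1, hx] with y hy1 hy2
  filter_upwards [hy2] with b hb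
  have h3 := ht' _ hy1.1
  have h4 : h * x ^ c * y ^ c * b ^ κ = h * (x ^ c * y ^ c * b ^ κ) := by
    simp only [mul_assoc]
  have h5 : h * (x * y) ^ c * b ^ κ
      = h * (((x * y) ^ c * (x ^ c * y ^ c)⁻¹) * (x ^ c * y ^ c * b ^ κ)) := by
    simp only [mul_assoc, inv_mul_cancel_left, mul_inv_rev]
  rw [h5]
  rw [h4] at hb
  have h6 := corr1 hρ.pn h ((x * y) ^ c * (x ^ c * y ^ c)⁻¹) (x ^ c * y ^ c * b ^ κ)
  linarith

theorem vcL (hZ : S_PWZ.{u}) [TopologicalSpace H] [IsTopologicalGroup H] {ρ : H → ℝ}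
    (hρ : Gen ρ) {F : Filter H} (hF : Deep ρ F) {p : Ultrafilter H} (hp : (p : Filter H) ≤ F)
    (q : Ultrafilter H) {κ c : ℤ} {l ε : ℝ} (hε : 0 < ε) (hv : Vc ρ F p κ c l) :
    Vc ρ F (str q p) κ c (l - ε) := by
  intro h
  exact red hZ hρ hF hp hε h (Filter.Eventually.of_forall (fun x => hv (h * x ^ c)))

theorem vcR (hZ : S_PWZ.{u}) [TopologicalSpace H] [IsTopologicalGroup H] {ρ : H → ℝ}
    (hρ : Gen ρ) {F : Filter H} (hF : Deep ρ F) {p q : Ultrafilter H} (hp : (p : Filter H) ≤ F)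
    (hq : (q : Filter H) ≤ F) {κ c : ℤ} {l ε : ℝ} (hε : 0 < ε) (hv : Vc ρ F p κ (-c) l) :
    Vc ρ F (str p q) κ c (l / 2 - ε) := by
  intro h
  have hε2 : 0 < ε / 2 := by linarith
  have hε8 : 0 < ε / 8 := by linarith
  have hl : l / 2 - ε = (l / 2 - ε / 2) - ε / 2 := by ring
  rw [hl]
  refine red hZ hρ hF hq hε2 h ?_
  by_contra hcon
  have hcon' : ∀ᶠ x in (p : Filter H), ∀ᶠ y in (q : Filter H), ∃ᶠ b in F,
      ρ (h * x ^ c * y ^ c * b ^ κ) < l / 2 - ε / 2 := by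
    have h1 := Ultrafilter.eventually_not.2 hcon
    filter_upwards [h1] with x hx
    have h2 := Ultrafilter.eventually_not.2 hx
    filter_upwards [h2] with y hy
    have h3 := Filter.not_eventually.1 hy
    exact h3.mono (fun b hb => not_le.1 hb)
  obtain ⟨x, hx⟩ := hcon'.exists
  obtain ⟨t, ht, ht'⟩ := cj hρ (h * x ^ c) (ε / 8) hε8
  have hcom : ∀ᶠ z in (p : Filter H), ρ (z ^ (-c) * h⁻¹ * (z ^ (-c))⁻¹ * (h⁻¹)⁻¹) < t := by
    have h1 := hF.pow (-c) _ (hF.com t ht h⁻¹)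
    exact (h1.filter_mono hp).mono (fun z hz => hz.1)
  obtain ⟨x', hx', hxv, hxc⟩ := (hcon'.and ((hv (h * x ^ c * h⁻¹)).and hcom)).exists
  obtain ⟨u, hu, hu'⟩ := (hx.and hx').exists
  obtain ⟨t1, ht1, ht1'⟩ := cj hρ (h * x ^ c * h⁻¹ * x' ^ (-c)) (ε / 8) hε8
  -- the commutator conditions
  have hB : ∀ g : H, ∀ᶠ b in F, ∀ᶠ b' in F,
      ρ ((b ^ κ * b' ^ (-κ)) * g * (b ^ κ * b' ^ (-κ))⁻¹ * g⁻¹) < t := by
    intro g
    have h1 : ∀ᶠ a in F, ∀ᶠ y in F, a * y ∈ {z : H | ρ (z * g * z⁻¹ * g⁻¹) < t} :=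
      hF.mul _ ((hF.com t ht g).mono (fun z hz => hz.1))
    have h2 := hF.pow κ _ h1
    filter_upwards [h2] with b hb
    exact hF.pow (-κ) _ hb
  have hD1 : ∀ᶠ b in F, ∀ᶠ b' in F,
      l ≤ ρ (h * x ^ c * h⁻¹ * x' ^ (-c) * (b * b' ^ (-1 : ℤ)) ^ κ) := by
    have h1 := hF.mul _ hxv
    filter_upwards [h1] with b hb
    exact hF.pow (-1) _ hb
  have hD2 : ∀ b : H, ∀ᶠ b' in F,
      ρ ((b * b' ^ (-1 : ℤ)) ^ κ * (b ^ κ * (b' ^ (-1 : ℤ)) ^ κ)⁻¹) < t1 := by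
    intro b
    have h1 := (hZ H ρ hρ F hF b κ t1 ht1).mono (fun z hz => hz.1)
    exact hF.pow (-1) _ h1
  obtain ⟨b, hb, hbB, hbk, hb1⟩ := (hu.and_eventually
    ((hB (u ^ c)).and ((hB (x' ^ (-c) * h⁻¹)).and hD1))).exists
  obtain ⟨b', hb', hbB', hbk', hb1', hb2'⟩ := (hu'.and_eventually
    (hbB.and (hbk.and (hb1.and (hD2 b))))).exists
  have hpow : (b' ^ (-1 : ℤ)) ^ κ = b' ^ (-κ) := by
    rw [← zpow_mul]; congr 1; ring
  rw [hpow] at hb2'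
  set B : H := b ^ κ * b' ^ (-κ) with hBdef
  -- step 1
  have s1 : ρ (h * x ^ c * h⁻¹ * x' ^ (-c) * (b * b' ^ (-1 : ℤ)) ^ κ)
      ≤ ε / 8 + ρ (h * x ^ c * h⁻¹ * x' ^ (-c) * B) := by
    have h1 := corr2 hρ.pn (h * x ^ c * h⁻¹ * x' ^ (-c))
      ((b * b' ^ (-1 : ℤ)) ^ κ * B⁻¹) B
    rw [inv_mul_cancel_right] at h1
    have h2 := ht1' _ hb2'
    linarith
  -- step 2
  have s2 : ρ (h * x ^ c * h⁻¹ * x' ^ (-c) * B) ≤ ε / 8 + ρ (h * x ^ c * (x' ^ (-c) * h⁻¹ * B)) := by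
    have h1 := corr1 hρ.pn (h * x ^ c) (x' ^ (-c) * h⁻¹ * (x' ^ (-c))⁻¹ * (h⁻¹)⁻¹)
      (h⁻¹ * x' ^ (-c) * B)
    have h2 := ht' _ hxc
    have h3 : (x' ^ (-c) * h⁻¹ * (x' ^ (-c))⁻¹ * (h⁻¹)⁻¹) * (h⁻¹ * x' ^ (-c) * B)
        = x' ^ (-c) * h⁻¹ * B := by
      simp only [mul_assoc, inv_mul_cancel_left]
    rw [h3] at h1
    have h4 : h * x ^ c * (h⁻¹ * x' ^ (-c) * B) = h * x ^ c * h⁻¹ * x' ^ (-c) * B := by
      simp only [mul_assoc]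
    rw [h4] at h1
    linarith
  -- step 3
  have s3 : ρ (h * x ^ c * (x' ^ (-c) * h⁻¹ * B)) ≤ ε / 8 + ρ (h * x ^ c * (B * (x' ^ (-c) * h⁻¹))) := by
    have h1 := corr1 hρ.pn (h * x ^ c) (B * (x' ^ (-c) * h⁻¹) * B⁻¹ * (x' ^ (-c) * h⁻¹)⁻¹)
      (x' ^ (-c) * h⁻¹ * B)
    have h2 := ht' _ hbk'
    have h3 : (B * (x' ^ (-c) * h⁻¹) * B⁻¹ * (x' ^ (-c) * h⁻¹)⁻¹) * (x' ^ (-c) * h⁻¹ * B)
        = B * (x' ^ (-c) * h⁻¹) := by
      exact aux3 B (x' ^ (-c) * h⁻¹)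
    rw [h3] at h1
    linarith
  -- step 4
  have s4 : ρ (h * x ^ c * (B * (x' ^ (-c) * h⁻¹)))
      ≤ ε / 8 + ρ (h * x ^ c * (u ^ c * B * (u ^ c)⁻¹ * (x' ^ (-c) * h⁻¹))) := by
    have h1 := corr1 hρ.pn (h * x ^ c) (B * u ^ c * B⁻¹ * (u ^ c)⁻¹)⁻¹
      (B * (x' ^ (-c) * h⁻¹))
    have h2 : ρ (h * x ^ c * (B * u ^ c * B⁻¹ * (u ^ c)⁻¹)⁻¹ * (h * x ^ c)⁻¹) < ε / 8 := by
      apply ht'
      rw [hρ.pn.inv]
      exact hbB'
    have h3 : (B * u ^ c * B⁻¹ * (u ^ c)⁻¹)⁻¹ * (B * (x' ^ (-c) * h⁻¹))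
        = u ^ c * B * (u ^ c)⁻¹ * (x' ^ (-c) * h⁻¹) := by
      group
    rw [h3] at h1
    linarith
  -- step 5
  have s5 : ρ (h * x ^ c * (u ^ c * B * (u ^ c)⁻¹ * (x' ^ (-c) * h⁻¹)))
      ≤ ρ (h * x ^ c * u ^ c * b ^ κ) + ρ (h * x' ^ c * u ^ c * b' ^ κ) := by
    have h1 : h * x ^ c * (u ^ c * B * (u ^ c)⁻¹ * (x' ^ (-c) * h⁻¹))
        = (h * x ^ c * u ^ c * b ^ κ) * (h * x' ^ c * u ^ c * b' ^ κ)⁻¹ := by
      rw [hBdef]
      simp only [mul_inv_rev, zpow_neg, mul_assoc]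
    rw [h1]
    refine (hρ.pn.mul _ _).trans ?_
    rw [hρ.pn.inv]
  linarith

theorem comb (hZ : S_PWZ.{u}) [TopologicalSpace H] [IsTopologicalGroup H] {ρ : H → ℝ}
    (hρ : Gen ρ) {F : Filter H} (hF : Deep ρ F) (n : ℕ) :
    ∀ (p : ℕ → Ultrafilter H) (κ : ℕ → ℤ) (l ε : ℕ → ℝ) (C : ℕ → Set ℤ),
    (∀ i, i < n → (p i : Filter H) ≤ F ∧ 0 < ε i ∧ (∀ c ∈ C i, -c ∈ C i) ∧
      ∀ c ∈ C i, Vc ρ F (p i) (κ i) c (l i)) →
    ∃ q : Ultrafilter H, (q : Filter H) ≤ F ∧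
      ∀ i, i < n → ∀ c ∈ C i, Vc ρ F q (κ i) c (l i / 2 - ε i) := by
  induction n with
  | zero =>
    intro p κ l ε C _
    refine ⟨pure 1, ?_, fun i hi => absurd hi (Nat.not_lt_zero i)⟩
    intro A hA
    exact hF.one A hA
  | succ n ih =>
    intro p κ l ε C hyp
    obtain ⟨q, hq, hq'⟩ := ih (fun i => p (i + 1)) (fun i => κ (i + 1)) (fun i => l (i + 1))
      (fun i => ε (i + 1) / 2) (fun i => C (i + 1)) (by
        intro i hi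
        obtain ⟨h1, h2, h3, h4⟩ := hyp (i + 1) (by omega)
        exact ⟨h1, by positivity, h3, h4⟩)
    obtain ⟨h1, h2, h3, h4⟩ := hyp 0 (by omega)
    refine ⟨str (p 0) q, str_le hF h1 hq, ?_⟩
    intro i hi c hc
    rcases i with _ | j
    · exact vcR hZ hρ hF h1 hq h2 (h4 (-c) (h3 c hc))
    · have h5 := hq' j (by omega) c hc
      have h6 := (hyp (j + 1) hi).2.1
      have h7 := vcL hZ hρ hF hq (p 0) (half_pos h6) h5
      have h8 : l (j + 1) / 2 - ε (j + 1) / 2 - ε (j + 1) / 2 = l (j + 1) / 2 - ε (j + 1) := by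
        ring
      rw [h8] at h7
      exact h7

end Pool.Agent.H72M.CMB

namespace Pool.Agent.H72M

/-- Leaf CMB of the project H19M -/
theorem t_CMB : S_PWZ.{u} → S_CMB.{u} := by
  intro hZ H _ _ _ ρ hρ F hF n p κ l C hyp
  obtain ⟨q, hq, hq'⟩ := CMB.comb hZ hρ hF n p κ l (fun i => l i / 6) C (by
    intro i hi
    obtain ⟨h1, h2, h3, h4⟩ := hyp i hi
    exact ⟨h1, by positivity, h3, h4⟩)
  refine ⟨q, hq, ?_⟩
  intro i hi c hc
  have h1 := hq' i hi c hc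
  have h2 : l i / 2 - l i / 6 = l i / 3 := by ring
  rw [← h2]
  exact h1

end Pool.Agent.H72M
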